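import Pool.Agent.Helper15.T4.Stmts

set_option autoImplicit false

open Finset MeasureTheory Filter Topology

namespace Pool.Agent.Helper79.T4

open Pool.Agent.Helper15.T4
open scoped Kronecker

theorem det2_comm {n : Type} [Fintype n] [DecidableEq n] (A B : Matrix n n ℂ) :
    ((3 : ℂ) • (1 : Matrix n n ℂ) - A * B).det = ((3 : ℂ) • (1 : Matrix n n ℂ) - B * A).det := by
  have h1 : ∀ A B : Matrix n n ℂ, ((3 : ℂ) • (1 : Matrix n n ℂ) - A * B) =
      (3 : ℂ) • (1 + ((-1 / 3 : ℂ) • A) * B) := by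
    intro A B
    rw [smul_add, Matrix.smul_mul, smul_smul]
    have : (3 : ℂ) * (-1 / 3) = -1 := by norm_num
    rw [this, neg_one_smul, sub_eq_add_neg]
  rw [h1 A B, Matrix.det_smul, Matrix.det_one_add_mul_comm]
  rw [h1 B A, Matrix.det_smul, Matrix.smul_mul, Matrix.mul_smul]

theorem det2_row (a : L1) : ∑ i, S1 a i = (Real.sqrt 2 : ℂ) := by
  rw [Fintype.sum_prod_type]
  simp only [S1]
  have h : ∀ x : Fin 4, ∑ y : Fin 3, (if a.1 = x then ((Real.sqrt 2 : ℂ) - Complex.I) / 3 +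
      (if a.2 = y then Complex.I else 0) else 0) =
      if a.1 = x then (Real.sqrt 2 : ℂ) else 0 := by
    intro x
    by_cases hx : a.1 = x
    · simp only [hx, if_true, Finset.sum_add_distrib, Finset.sum_ite_eq, Finset.mem_univ,
        Finset.sum_const, Finset.card_univ, Fintype.card_fin, nsmul_eq_mul]
      push_cast
      ring
    · simp [hx]
  rw [Finset.sum_congr rfl (fun x _ => h x)]
  simp

theorem det2_symm (a i : L1) : S1 a i = S1 i a := by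
  simp only [S1]
  by_cases h : a.1 = i.1
  · by_cases h' : a.2 = i.2
    · simp [h, h']
    · have h'' : ¬ i.2 = a.2 := fun e => h' e.symm
      simp [h, h', h'']
  · have h'' : ¬ i.1 = a.1 := fun e => h e.symm
    simp [h, h'']

theorem det2_col (a : L1) : ∑ i, S1 i a = (Real.sqrt 2 : ℂ) := by
  rw [← det2_row a]
  exact Finset.sum_congr rfl (fun i _ => det2_symm i a)

theorem det2_l1 (a : L1) : m1.l a u1 = (Real.sqrt 2 : ℂ) / (Real.sqrt 12 : ℂ) := by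
  have h : m1.l a u1 = ∑ i, S1 a i * ((1 / Real.sqrt 12 : ℝ) : ℂ) := rfl
  rw [h, ← Finset.sum_mul, det2_row]
  push_cast
  ring

theorem det2_sqrt2 : (Real.sqrt 2 : ℂ) * (Real.sqrt 2 : ℂ) = 2 := by
  rw [← Complex.ofReal_mul, Real.mul_self_sqrt (by norm_num)]
  norm_num

theorem det2_sqrt12 : (Real.sqrt 12 : ℂ) * (Real.sqrt 12 : ℂ) = 12 := by
  rw [← Complex.ofReal_mul, Real.mul_self_sqrt (by norm_num)]
  norm_num

theorem det2_prodsum {L : Type} [Fintype L] (f g : L → ℂ) :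
    ∑ c : L × L, f c.1 * g c.2 = (∑ c, f c) * ∑ c, g c := by
  rw [Fintype.sum_prod_type, Finset.sum_mul_sum]

theorem det2_l2 (a : L1 × L1) : m2.l a u2 = m1.l a.1 u1 * m1.l a.2 u1 := by
  have h : m2.l a u2 = ∑ i : L1 × L1, (S1 a.1 i.1 * S1 a.2 i.2) * ((1 / 12 : ℝ) : ℂ) := rfl
  rw [h, ← Finset.sum_mul, det2_prodsum (fun i => S1 a.1 i) (fun i => S1 a.2 i), det2_row, det2_row,
    det2_l1, det2_l1, div_mul_div_comm, det2_sqrt12]
  push_cast
  ring

theorem det2_s1 (a i : L1) : m1.l a (Pi.single i 1) = S1 a i := by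
  have h : m1.l a (Pi.single i 1) = ∑ k, S1 a k * ((Pi.single (M := fun _ => ℝ) i 1 k : ℝ) : ℂ) := rfl
  rw [h, Finset.sum_eq_single i]
  · simp
  · intro b _ hb
    simp [hb]
  · simp

theorem det2_s2 (a i : L1 × L1) : m2.l a (Pi.single i 1) = S1 a.1 i.1 * S1 a.2 i.2 := by
  have h : m2.l a (Pi.single i 1) =
      ∑ k : L1 × L1, (S1 a.1 k.1 * S1 a.2 k.2) * ((Pi.single (M := fun _ => ℝ) i 1 k : ℝ) : ℂ) := rfl
  rw [h, Finset.sum_eq_single i]
  · simp
  · intro b _ hb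
    simp [hb]
  · simp

theorem det2_T2 (i j : L1 × L1) : m2.T u2 (Pi.single i 1) (Pi.single j 1) =
    m1.T u1 (Pi.single i.1 1) (Pi.single j.1 1) * m1.T u1 (Pi.single i.2 1) (Pi.single j.2 1) := by
  have h1 : m2.T u2 (Pi.single i 1) (Pi.single j 1) = ∑ a : L1 × L1, ∑ b : L1 × L1, ∑ c : L1 × L1,
      ((w1 a.1 b.1 c.1 : ℂ) * m1.l a.1 u1 * m1.l b.1 (Pi.single i.1 1) * m1.l c.1 (Pi.single j.1 1)) *
      ((w1 a.2 b.2 c.2 : ℂ) * m1.l a.2 u1 * m1.l b.2 (Pi.single i.2 1) *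
        m1.l c.2 (Pi.single j.2 1)) := by
    unfold Mdl.T
    refine Finset.sum_congr rfl fun a _ => Finset.sum_congr rfl fun b _ =>
      Finset.sum_congr rfl fun c _ => ?_
    rw [det2_l2, det2_s2, det2_s2, det2_s1, det2_s1, det2_s1, det2_s1]
    have : ((m2.w a b c : ℝ) : ℂ) = (w1 a.1 b.1 c.1 : ℂ) * (w1 a.2 b.2 c.2 : ℂ) := by
      rw [← Complex.ofReal_mul]
      rfl
    rw [this]
    ring
  rw [h1]
  have h2 : ∀ a b : L1 × L1, ∑ c : L1 × L1,
      ((w1 a.1 b.1 c.1 : ℂ) * m1.l a.1 u1 * m1.l b.1 (Pi.single i.1 1) * m1.l c.1 (Pi.single j.1 1)) *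
      ((w1 a.2 b.2 c.2 : ℂ) * m1.l a.2 u1 * m1.l b.2 (Pi.single i.2 1) *
        m1.l c.2 (Pi.single j.2 1)) =
      (∑ c, (w1 a.1 b.1 c : ℂ) * m1.l a.1 u1 * m1.l b.1 (Pi.single i.1 1) *
        m1.l c (Pi.single j.1 1)) *
      ∑ c, (w1 a.2 b.2 c : ℂ) * m1.l a.2 u1 * m1.l b.2 (Pi.single i.2 1) *
        m1.l c (Pi.single j.2 1) := fun a b =>
    det2_prodsum (fun c => (w1 a.1 b.1 c : ℂ) * m1.l a.1 u1 * m1.l b.1 (Pi.single i.1 1) *
        m1.l c (Pi.single j.1 1)) (fun c => (w1 a.2 b.2 c : ℂ) * m1.l a.2 u1 *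
        m1.l b.2 (Pi.single i.2 1) * m1.l c (Pi.single j.2 1))
  rw [Finset.sum_congr rfl fun a _ => Finset.sum_congr rfl fun b _ => h2 a b]
  rw [Finset.sum_congr rfl fun a _ => det2_prodsum
    (fun b => ∑ c, (w1 a.1 b c : ℂ) * m1.l a.1 u1 * m1.l b (Pi.single i.1 1) *
        m1.l c (Pi.single j.1 1))
    (fun b => ∑ c, (w1 a.2 b c : ℂ) * m1.l a.2 u1 * m1.l b (Pi.single i.2 1) *
        m1.l c (Pi.single j.2 1))]
  exact det2_prodsum
    (fun a => ∑ b, ∑ c, (w1 a b c : ℂ) * m1.l a u1 * m1.l b (Pi.single i.1 1) *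
        m1.l c (Pi.single j.1 1))
    (fun a => ∑ b, ∑ c, (w1 a b c : ℂ) * m1.l a u1 * m1.l b (Pi.single i.2 1) *
        m1.l c (Pi.single j.2 1))

theorem det2_w (a b c : L1) : w1 a b c = w1 b c a := by
  unfold w1
  have : (a.1 ≠ b.1 ∧ a.1 ≠ c.1 ∧ b.1 ≠ c.1 ∧ vc a = vc b ∧ vc a = vc c) ↔
      (b.1 ≠ c.1 ∧ b.1 ≠ a.1 ∧ c.1 ≠ a.1 ∧ vc b = vc c ∧ vc b = vc a) := by
    constructor
    · rintro ⟨h1, h2, h3, h4, h5⟩
      exact ⟨h3, h1.symm, h2.symm, h4.symm.trans h5, h4.symm⟩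
    · rintro ⟨h1, h2, h3, h4, h5⟩
      exact ⟨h2.symm, h3.symm, h1, h5.symm, h5.symm.trans h4⟩
  by_cases h : (a.1 ≠ b.1 ∧ a.1 ≠ c.1 ∧ b.1 ≠ c.1 ∧ vc a = vc b ∧ vc a = vc c)
  · rw [if_pos h, if_pos (this.1 h)]
  · rw [if_neg h, if_neg (fun h' => h (this.2 h'))]

/-- The matrix `S1`. -/
noncomputable def det2S : Matrix L1 L1 ℂ := Matrix.of S1

/-- The matrix `J / 12`. -/
noncomputable def det2J : Matrix L1 L1 ℂ := Matrix.of fun _ _ => (1 / 12 : ℂ)

theorem det2_N (i j : L1) : (det2S.transpose * (m1.R u1 * det2S)) i j =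
    m1.T u1 (Pi.single i 1) (Pi.single j 1) := by
  have h1 : m1.T u1 (Pi.single i 1) (Pi.single j 1) =
      ∑ a, ∑ b, ∑ c, (w1 b c a : ℂ) * m1.l a u1 * S1 b i * S1 c j := by
    unfold Mdl.T
    refine Finset.sum_congr rfl fun a _ => Finset.sum_congr rfl fun b _ =>
      Finset.sum_congr rfl fun c _ => ?_
    rw [det2_s1, det2_s1, ← det2_w a b c]
    rfl
  rw [h1, Matrix.mul_apply, Finset.sum_comm]
  refine Finset.sum_congr rfl fun b _ => ?_
  rw [Matrix.mul_apply, Finset.mul_sum, Finset.sum_comm]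
  refine Finset.sum_congr rfl fun c _ => ?_
  have h2 : m1.R u1 b c = ∑ a, (w1 b c a : ℂ) * m1.l a u1 := rfl
  rw [h2, Finset.sum_mul, Finset.mul_sum]
  refine Finset.sum_congr rfl fun a _ => ?_
  have h3 : det2S.transpose i b = S1 b i := rfl
  have h4 : det2S c j = S1 c j := rfl
  rw [h3, h4]
  ring

theorem det2_J (i j : L1) : (det2S.transpose * (det2J * det2S)) i j = 1 / 6 := by
  rw [Matrix.mul_apply]
  have h1 : ∀ b : L1, (det2J * det2S) b j = (Real.sqrt 2 : ℂ) / 12 := by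
    intro b
    rw [Matrix.mul_apply]
    have : ∀ c : L1, det2J b c * det2S c j = (1 / 12 : ℂ) * S1 c j := fun c => rfl
    rw [Finset.sum_congr rfl fun c _ => this c, ← Finset.mul_sum, det2_col]
    ring
  have h2 : ∀ b : L1, det2S.transpose i b * (det2J * det2S) b j = S1 b i * ((Real.sqrt 2 : ℂ) / 12) := by
    intro b
    rw [h1 b]
    rfl
  rw [Finset.sum_congr rfl fun b _ => h2 b, ← Finset.sum_mul, det2_col, mul_div_assoc', det2_sqrt2]
  norm_num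

theorem det2_JA : det2J * m1.AM = (2 : ℂ) • det2J := by
  have h0 : m1.AM = det2S * det2S.transpose := by
    ext a b
    rw [Matrix.mul_apply]
    rfl
  rw [h0]
  ext a b
  rw [Matrix.mul_apply, Matrix.smul_apply]
  have h1 : ∀ c : L1, det2J a c * (det2S * det2S.transpose) c b =
      ∑ d, (1 / 12 : ℂ) * (S1 c d * S1 b d) := by
    intro c
    rw [Matrix.mul_apply, Finset.mul_sum]
    rfl
  rw [Finset.sum_congr rfl fun c _ => h1 c, Finset.sum_comm]
  have h2 : ∀ d : L1, ∑ c, (1 / 12 : ℂ) * (S1 c d * S1 b d) = (1 / 12 : ℂ) * (Real.sqrt 2 : ℂ) * S1 b d := by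
    intro d
    rw [← Finset.mul_sum, ← Finset.sum_mul, det2_col]
    ring
  rw [Finset.sum_congr rfl fun d _ => h2 d, ← Finset.mul_sum, det2_row, mul_assoc, det2_sqrt2]
  have : det2J a b = 1 / 12 := rfl
  rw [this, smul_eq_mul]
  ring

theorem det2_AM : m1.AM = det2S * det2S.transpose := by
  ext a b
  rw [Matrix.mul_apply]
  rfl

theorem det2_q : (q1 : ℂ) * (q1 : ℂ) = 8 / 3 := by
  have : q1 * q1 = 8 / 3 := Real.mul_self_sqrt (by norm_num)
  rw [← Complex.ofReal_mul, this]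
  push_cast
  rfl

theorem det2_q0 : (q1 : ℂ) ≠ 0 := by
  intro h
  have := det2_q
  rw [h] at this
  norm_num at this

/-- The middle matrix. -/
noncomputable def det2K : Matrix (L1 × L1) (L1 × L1) ℂ :=
  (6 : ℂ) • (((q1 : ℂ)⁻¹ • m1.R u1) ⊗ₖ ((q1 : ℂ)⁻¹ • m1.R u1)) - (9 / 4 : ℂ) • (det2J ⊗ₖ det2J)

theorem det2_H : HM m2.T u2 (8 / 3) = (3 : ℂ) • (1 : Matrix (L1 × L1) (L1 × L1) ℂ) -
    (det2S ⊗ₖ det2S).transpose * (det2K * (det2S ⊗ₖ det2S)) := by
  have h1 : (det2S ⊗ₖ det2S).transpose = det2S.transpose ⊗ₖ det2S.transpose := by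
    ext i j
    rfl
  have h2 : (det2S ⊗ₖ det2S).transpose * (det2K * (det2S ⊗ₖ det2S)) =
      (6 : ℂ) • (((q1 : ℂ)⁻¹ • (det2S.transpose * (m1.R u1 * det2S))) ⊗ₖ
        ((q1 : ℂ)⁻¹ • (det2S.transpose * (m1.R u1 * det2S)))) -
      (9 / 4 : ℂ) • ((det2S.transpose * (det2J * det2S)) ⊗ₖ
        (det2S.transpose * (det2J * det2S))) := by
    rw [h1, det2K, Matrix.sub_mul, Matrix.mul_sub, Matrix.smul_mul, Matrix.smul_mul,
      Matrix.mul_smul, Matrix.mul_smul, ← Matrix.mul_kronecker_mul, ← Matrix.mul_kronecker_mul,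
      ← Matrix.mul_kronecker_mul, ← Matrix.mul_kronecker_mul, Matrix.smul_mul, Matrix.mul_smul]
  rw [h2]
  ext i j
  rw [Matrix.sub_apply, Matrix.sub_apply, Matrix.smul_apply, Matrix.smul_apply, Matrix.smul_apply,
    Matrix.kronecker_apply, Matrix.kronecker_apply, Matrix.smul_apply, Matrix.smul_apply,
    det2_J, det2_J, det2_N, det2_N, Matrix.one_apply]
  have h3 : HM m2.T u2 (8 / 3) i j = (if i = j then 3 else 0) -
      6 * m2.T u2 (Pi.single i 1) (Pi.single j 1) / ((8 / 3 : ℝ) : ℂ) +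
      9 * (((1 / 12 : ℝ) * (1 / 12 : ℝ) : ℝ) : ℂ) := rfl
  rw [h3, det2_T2]
  have h4 : ((8 / 3 : ℝ) : ℂ) = (q1 : ℂ) * (q1 : ℂ) := by
    rw [det2_q]
    push_cast
    rfl
  rw [h4]
  have h5 := det2_q0
  simp only [smul_eq_mul, mul_ite, mul_one, mul_zero]
  push_cast
  field_simp
  ring

theorem det2_det (hR : ST_RU) : (HM m2.T u2 (8 / 3)).det =
    ((3 : ℂ) • (1 : Matrix (L1 × L1) (L1 × L1) ℂ) - ((6 : ℂ) • (B1 ⊗ₖ B1) -
      (9 : ℂ) • (det2J ⊗ₖ det2J))).det := by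
  have h1 : (det2S ⊗ₖ det2S).transpose = det2S.transpose ⊗ₖ det2S.transpose := by
    ext i j
    rfl
  have h2 : (det2K * (det2S ⊗ₖ det2S)) * (det2S ⊗ₖ det2S).transpose =
      (6 : ℂ) • (B1 ⊗ₖ B1) - (9 : ℂ) • (det2J ⊗ₖ det2J) := by
    have hB : ((q1 : ℂ)⁻¹ • m1.R u1) * m1.AM = B1 := by
      rw [Matrix.smul_mul, hR, smul_smul, inv_mul_cancel₀ det2_q0, one_smul]
    rw [Matrix.mul_assoc, h1, ← Matrix.mul_kronecker_mul, ← det2_AM, det2K, Matrix.sub_mul,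
      Matrix.smul_mul, Matrix.smul_mul, ← Matrix.mul_kronecker_mul, ← Matrix.mul_kronecker_mul,
      hB, det2_JA, Matrix.smul_kronecker, Matrix.kronecker_smul, smul_smul, smul_smul]
    norm_num
  rw [det2_H, det2_comm, h2]

theorem det2_nu : nu * (starRingEnd ℂ) nu = 1 / 4 := by
  rw [Complex.mul_conj]
  have h7 : Real.sqrt 7 * Real.sqrt 7 = 7 := Real.mul_self_sqrt (by norm_num)
  have : Complex.normSq nu = 1 / 4 := by
    unfold nu
    rw [Complex.normSq_apply]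
    simp
    nlinarith [h7]
  rw [this]
  norm_num

/-- Factor of the determinant. -/
noncomputable def det2F (z w : ℂ) : ℝ := ‖3 - 6 * z * w‖

theorem det2_conj (z w : ℂ) : det2F ((starRingEnd ℂ) z) ((starRingEnd ℂ) w) = det2F z w := by
  unfold det2F
  have : (3 : ℂ) - 6 * (starRingEnd ℂ) z * (starRingEnd ℂ) w = (starRingEnd ℂ) (3 - 6 * z * w) := by
    rw [map_sub, map_mul, map_mul, Complex.conj_ofNat, Complex.conj_ofNat]
  rw [this, Complex.norm_conj]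

theorem det2_prod (G : L1 → ℝ) (F : ℂ → ℝ) (h : ∀ a, a ≠ (0, 0) → G a = F (ev a)) :
    ∏ a, G a = G (0, 0) * (F nu ^ 3 * F ((starRingEnd ℂ) nu) ^ 3 * F (1 / 4) ^ 5) := by
  rw [Fintype.prod_prod_type]
  simp only [Fin.prod_univ_four, Fin.prod_univ_three]
  rw [h (0, 1) (by decide), h (0, 2) (by decide), h (1, 0) (by decide), h (1, 1) (by decide),
    h (1, 2) (by decide), h (2, 0) (by decide), h (2, 1) (by decide), h (2, 2) (by decide),
    h (3, 0) (by decide), h (3, 1) (by decide), h (3, 2) (by decide)]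
  have e01 : ev (0, 1) = 1 / 4 := by simp [ev]
  have e02 : ev (0, 2) = 1 / 4 := by simp [ev]
  have e10 : ev (1, 0) = nu := by simp [ev]
  have e11 : ev (1, 1) = (starRingEnd ℂ) nu := by simp [ev]
  have e12 : ev (1, 2) = 1 / 4 := by simp [ev]
  have e20 : ev (2, 0) = nu := by simp [ev]
  have e21 : ev (2, 1) = (starRingEnd ℂ) nu := by simp [ev]
  have e22 : ev (2, 2) = 1 / 4 := by simp [ev]
  have e30 : ev (3, 0) = nu := by simp [ev]
  have e31 : ev (3, 1) = (starRingEnd ℂ) nu := by simp [ev]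
  have e32 : ev (3, 2) = 1 / 4 := by simp [ev]
  rw [e01, e02, e10, e11, e12, e20, e21, e22, e30, e31, e32]
  ring

theorem det2_sq (a b c : ℝ) (z w : ℂ) (h1 : (3 - 6 * z * w).re = a) (h2 : (3 - 6 * z * w).im = b)
    (h3 : a * a + b * b = c) : det2F z w ^ 2 = c := by
  unfold det2F
  rw [← Complex.normSq_eq_norm_sq, Complex.normSq_apply, h1, h2, h3]

theorem det2_val (F : L1 × L1 → ℝ) (h0 : F ((0, 0), (0, 0)) = 6)
    (h : ∀ p, p ≠ ((0, 0), (0, 0)) → F p = det2F (ev p.1) (ev p.2)) :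
    ∏ p, F p = 6 * 3 ^ 143 * (343 / 256) ^ 2 * Pi2 := by
  have h7 : Real.sqrt 7 * Real.sqrt 7 = 7 := Real.mul_self_sqrt (by norm_num)
  have nre : nu.re = -3 / 8 := by
    unfold nu
    simp
  have nim : nu.im = Real.sqrt 7 / 8 := by
    unfold nu
    simp
  have hA : det2F 1 nu ^ 2 = 63 / 2 := by
    apply det2_sq (21 / 4) (- (3 * Real.sqrt 7 / 4)) (63 / 2)
    · simp [nre]
      norm_num
    · simp [nim]
      ring
    · nlinarith [h7]
  have hB : det2F (1 / 4) nu ^ 2 = 207 / 16 := by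
    apply det2_sq (57 / 16) (- (3 * Real.sqrt 7 / 16)) (207 / 16)
    · have : (3 : ℂ) - 6 * (1 / 4) * nu = 3 - ((3 / 2 : ℝ) : ℂ) * nu := by
        push_cast
        ring
      rw [this]
      simp [nre]
      norm_num
    · have : (3 : ℂ) - 6 * (1 / 4) * nu = 3 - ((3 / 2 : ℝ) : ℂ) * nu := by
        push_cast
        ring
      rw [this]
      simp [nim]
      ring
    · nlinarith [h7]
  have hC : det2F nu nu ^ 2 = 81 / 8 := by
    apply det2_sq (45 / 16) (9 * Real.sqrt 7 / 16) (81 / 8)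
    · simp [nre, nim]
      nlinarith [h7]
    · simp [nre, nim]
      ring
    · nlinarith [h7]
  have hD : det2F nu ((starRingEnd ℂ) nu) = 3 / 2 := by
    unfold det2F
    rw [mul_assoc, det2_nu]
    norm_num
  have hD' : det2F ((starRingEnd ℂ) nu) nu = 3 / 2 := by
    unfold det2F
    rw [mul_assoc, mul_comm _ nu, det2_nu]
    norm_num
  have hE : det2F (1 / 4) (1 / 4) = 21 / 8 := by
    unfold det2F
    norm_num
  have hU : det2F 1 (1 / 4) = 3 / 2 := by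
    unfold det2F
    norm_num
  have c1 : (starRingEnd ℂ) (1 : ℂ) = 1 := map_one _
  have c4 : (starRingEnd ℂ) (1 / 4 : ℂ) = 1 / 4 := by
    rw [map_div₀, map_one, Complex.conj_ofNat]
  have hA' : det2F 1 ((starRingEnd ℂ) nu) = det2F 1 nu := by
    rw [← det2_conj 1 nu, c1]
  have hB' : det2F (1 / 4) ((starRingEnd ℂ) nu) = det2F (1 / 4) nu := by
    rw [← det2_conj (1 / 4) nu, c4]
  have hC' : det2F ((starRingEnd ℂ) nu) ((starRingEnd ℂ) nu) = det2F nu nu := det2_conj nu nu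
  have comm : ∀ z w, det2F z w = det2F w z := by
    intro z w
    unfold det2F
    rw [mul_assoc, mul_comm z w, ← mul_assoc]
  rw [Fintype.prod_prod_type]
  have r0 : ∏ b, F ((0, 0), b) =
      6 * (det2F 1 nu ^ 3 * det2F 1 ((starRingEnd ℂ) nu) ^ 3 * det2F 1 (1 / 4) ^ 5) := by
    have := det2_prod (fun b => F ((0, 0), b)) (fun w => det2F 1 w) (by
      intro b hb
      show F ((0, 0), b) = det2F 1 (ev b)
      rw [h ((0, 0), b) (by
        intro e
        exact hb (congrArg Prod.snd e))]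
      simp [ev])
    rw [this, h0]
  have r1 : ∀ a : L1, a ≠ (0, 0) → ∏ b, F (a, b) =
      (fun z => det2F z 1 * (det2F z nu ^ 3 * det2F z ((starRingEnd ℂ) nu) ^ 3 *
        det2F z (1 / 4) ^ 5)) (ev a) := by
    intro a ha
    have := det2_prod (fun b => F (a, b)) (fun w => det2F (ev a) w) (by
      intro b hb
      show F (a, b) = det2F (ev a) (ev b)
      rw [h (a, b) (by
        intro e
        exact ha (congrArg Prod.fst e))])
    rw [this]
    have e0 : F (a, (0, 0)) = det2F (ev a) 1 := by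
      rw [h (a, (0, 0)) (by
        intro e
        exact ha (congrArg Prod.fst e))]
      simp [ev]
    rw [e0]
  rw [det2_prod (fun a => ∏ b, F (a, b)) (fun z => det2F z 1 * (det2F z nu ^ 3 *
    det2F z ((starRingEnd ℂ) nu) ^ 3 * det2F z (1 / 4) ^ 5)) r1, r0]
  simp only [hA', comm nu 1, comm ((starRingEnd ℂ) nu) 1, comm (1 / 4) 1, hB', hC', hD, hD', hE, hU,
    comm nu (1 / 4), comm ((starRingEnd ℂ) nu) (1 / 4)]
  have key : ∀ A B C : ℝ, A ^ 2 = 63 / 2 → B ^ 2 = 207 / 16 → C ^ 2 = 81 / 8 →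
      6 * (A ^ 3 * A ^ 3 * (3 / 2) ^ 5) *
      ((A * (C ^ 3 * (3 / 2) ^ 3 * B ^ 5)) ^ 3 * (A * ((3 / 2) ^ 3 * C ^ 3 * B ^ 5)) ^ 3 *
        (3 / 2 * (B ^ 3 * B ^ 3 * (21 / 8) ^ 5)) ^ 5) = 6 * 3 ^ 143 * (343 / 256) ^ 2 * Pi2 := by
    intro A B C hA hB hC
    have e : 6 * (A ^ 3 * A ^ 3 * (3 / 2) ^ 5) *
      ((A * (C ^ 3 * (3 / 2) ^ 3 * B ^ 5)) ^ 3 * (A * ((3 / 2) ^ 3 * C ^ 3 * B ^ 5)) ^ 3 *
        (3 / 2 * (B ^ 3 * B ^ 3 * (21 / 8) ^ 5)) ^ 5) =
      6 * ((A ^ 2) ^ 6 * (3 / 2) ^ 10 * (C ^ 2) ^ 9 * (3 / 2) ^ 18 * (B ^ 2) ^ 30 * (21 / 8) ^ 25) := by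
      ring
    rw [e, hA, hB, hC]
    unfold Pi2
    norm_num
  exact key _ _ _ hA hB hC

theorem st_DET2 (hD : ST_DIAG) (hR : ST_RU) : ST_DET2 := by
  obtain ⟨T, T', hTT, hTT', hB, hJ⟩ := hD
  have k1 : (T ⊗ₖ T) * (T' ⊗ₖ T') = 1 := by
    rw [← Matrix.mul_kronecker_mul, hTT, Matrix.one_kronecker_one]
  have k2 : (T' ⊗ₖ T') * (T ⊗ₖ T) = 1 := by
    rw [← Matrix.mul_kronecker_mul, hTT', Matrix.one_kronecker_one]
  have hJ' : T' * det2J * T = Matrix.diagonal (fun a => if a = (0, 0) then 1 else 0) := hJ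
  unfold ST_DET2
  rw [det2_det hR, ← Matrix.det_conj_of_mul_eq_one k2 k1]
  have h1 : (T' ⊗ₖ T') * ((3 : ℂ) • (1 : Matrix (L1 × L1) (L1 × L1) ℂ) - ((6 : ℂ) • (B1 ⊗ₖ B1) -
      (9 : ℂ) • (det2J ⊗ₖ det2J))) * (T ⊗ₖ T) = Matrix.diagonal (fun p : L1 × L1 =>
      3 - (6 * (ev p.1 * ev p.2) - 9 * ((if p.1 = (0, 0) then 1 else 0) *
        (if p.2 = (0, 0) then 1 else 0)))) := by
    rw [Matrix.mul_sub, Matrix.sub_mul, Matrix.mul_sub, Matrix.sub_mul, Matrix.mul_smul,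
      Matrix.mul_smul, Matrix.mul_smul, Matrix.smul_mul, Matrix.smul_mul, Matrix.smul_mul,
      Matrix.mul_one, k2, ← Matrix.mul_kronecker_mul, ← Matrix.mul_kronecker_mul,
      ← Matrix.mul_kronecker_mul, ← Matrix.mul_kronecker_mul, hB, hJ',
      Matrix.diagonal_kronecker_diagonal, Matrix.diagonal_kronecker_diagonal]
    ext p q
    by_cases hpq : p = q
    · subst hpq
      simp
    · simp [hpq]
  rw [h1, Matrix.det_diagonal, norm_prod]
  apply det2_val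
  · norm_num [ev]
  · intro p hp
    unfold det2F
    have : ((if p.1 = (0, 0) then (1 : ℂ) else 0) * (if p.2 = (0, 0) then (1 : ℂ) else 0)) = 0 := by
      by_cases e1 : p.1 = (0, 0)
      · by_cases e2 : p.2 = (0, 0)
        · exact absurd (Prod.ext e1 e2) hp
        · simp [e2]
      · simp [e1]
    rw [this]
    ring_nf

end Pool.Agent.Helper79.T4
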